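import Pool.Agent.ACK.StmtsC

/-!
# Row ISO of the squad ACK: the isomorphism check
-/

set_option autoImplicit false

namespace Pool.Agent.ACK.H76

open Pool.Agent.ACK Pool.Agent.ACK.C

theorem mem_zip_map (f : Tk → Tk) : ∀ (l : List Tk) (v : Tk), v ∈ l → (v, f v) ∈ l.zip (l.map f)
  | [], v, h => by simp at h
  | a :: l, v, h => by
      rcases List.mem_cons.1 h with rfl | h1
      · simp
      · simp only [List.map_cons, List.zip_cons_cons, List.mem_cons]
        exact Or.inr (mem_zip_map f l v h1)

/-- ISO. -/
theorem iso : IsoStmt := by
  intro l
  induction l with
  | nil =>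
    intro l' h
    cases l' with
    | nil => exact ⟨fun n => n, fun _ => false, by simp, by simp⟩
    | cons a r => simp [C.iso] at h
  | cons t l ih =>
    intro l' h
    cases l' with
    | nil => simp [C.iso] at h
    | cons t' l' =>
      have h0 : C.iso (t :: l) (t' :: l') = (C.iso l l' && (l.zip l').all (fun u =>
          ((t.1 == u.1.1) == (t'.1 == u.2.1)) &&
          (!(t.1 == u.1.1) || (xor t.2 t'.2 == xor u.1.2 u.2.2)))) := rfl
      rw [h0, Bool.and_eq_true] at h
      obtain ⟨h1, h2⟩ := h
      obtain ⟨g, φ, hinj, hl'⟩ := ih l' h1
      subst hl'
      rw [List.all_eq_true] at h2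
      have key : ∀ v ∈ l, (t.1 = v.1 ↔ t'.1 = g v.1) ∧
          (t.1 = v.1 → xor t.2 t'.2 = φ v.1) := by
        intro v hv
        have h3 := h2 _ (mem_zip_map (fun t => (g t.1, xor (φ t.1) t.2)) l v hv)
        simp only [Bool.and_eq_true, beq_iff_eq, Bool.or_eq_true, Bool.not_eq_true',
          beq_eq_false_iff_ne, ne_eq] at h3
        obtain ⟨h4, h5⟩ := h3
        refine ⟨?_, ?_⟩
        · constructor
          · intro e
            have : (t'.1 == g v.1) = true := by rw [← h4]; simpa using e
            simpa using this
          · intro e
            have : (t.1 == v.1) = true := by rw [h4]; simpa using e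
            simpa using this
        · intro e
          rcases h5 with h5 | h5
          · exact absurd e h5
          · rw [h5]
            cases v.2 <;> cases φ v.1 <;> rfl
      by_cases hex : ∃ u ∈ l, t.1 = u.1
      · obtain ⟨u, hu, hut⟩ := hex
        have hk := key u hu
        have hg : t'.1 = g t.1 := by rw [hut]; exact hk.1.1 hut
        have hφ : t'.2 = xor (φ t.1) t.2 := by
          have h6 := hk.2 hut
          rw [hut, ← h6]
          cases t.2 <;> cases t'.2 <;> rfl
        refine ⟨g, φ, ?_, ?_⟩
        · intro a ha b hb hab
          rcases List.mem_cons.1 ha with rfl | ha1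
          · rcases List.mem_cons.1 hb with rfl | hb1
            · rfl
            · rw [hut] at hab ⊢
              exact hinj u hu b hb1 hab
          · rcases List.mem_cons.1 hb with rfl | hb1
            · rw [hut] at hab ⊢
              exact hinj a ha1 u hu hab
            · exact hinj a ha1 b hb1 hab
        · rw [List.map_cons, ← hg, ← hφ]
      · push Not at hex
        refine ⟨Function.update g t.1 t'.1, Function.update φ t.1 (xor t.2 t'.2), ?_, ?_⟩
        · intro a ha b hb hab
          rcases List.mem_cons.1 ha with rfl | ha1
          · rcases List.mem_cons.1 hb with rfl | hb1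
            · rfl
            · rw [Function.update_self, Function.update_of_ne (fun e => hex b hb1 e.symm)] at hab
              exact (key b hb1).1.2 hab
          · rcases List.mem_cons.1 hb with rfl | hb1
            · rw [Function.update_self, Function.update_of_ne (fun e => hex a ha1 e.symm)] at hab
              exact ((key a ha1).1.2 hab.symm).symm
            · rw [Function.update_of_ne (fun e => hex a ha1 e.symm),
                Function.update_of_ne (fun e => hex b hb1 e.symm)] at hab
              exact hinj a ha1 b hb1 hab
        · rw [List.map_cons, Function.update_self, Function.update_self]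
          have h7 : (t'.1, xor (xor t.2 t'.2) t.2) = t' := by
            obtain ⟨x, y⟩ := t'
            obtain ⟨z, w⟩ := t
            cases y <;> cases w <;> rfl
          rw [h7]
          congr 1
          apply List.map_congr_left
          intro v hv
          rw [Function.update_of_ne (fun e => hex v hv e.symm),
            Function.update_of_ne (fun e => hex v hv e.symm)]

end Pool.Agent.ACK.H76
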